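import Pool.Agent.N754.GF.Stm

/-!
Project GF (helper754), problem MP_70ba79_ag: the place given by a family of valuations along an
ultrafilter (helper901).
-/

set_option autoImplicit false

open MvPolynomial FF Filter

namespace Pool.Agent.N901.GF.PLC

open Pool.Agent.N754.GF

section Val

variable {K Γ : Type} [Field K] [LinearOrder Γ] (V : K → Γ)

/-- unique minimum of two terms -/
lemma two (hneg : ∀ f, f ≠ 0 → V (-f) = V f)
    (hadd : ∀ f g, f ≠ 0 → g ≠ 0 → f + g ≠ 0 → min (V f) (V g) ≤ V (f + g))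
    {f g : K} (hf : f ≠ 0) (hg : g ≠ 0) (h : V f ≠ V g) :
    f + g ≠ 0 ∧ (V (f + g) = V f ∨ V (f + g) = V g) := by
  have hne : f + g ≠ 0 := by
    intro h0
    have h1 : g = -f := by linear_combination h0
    apply h
    rw [h1, hneg f hf]
  refine ⟨hne, ?_⟩
  have key : ∀ a b : K, a ≠ 0 → b ≠ 0 → a + b ≠ 0 → V a < V b → V (a + b) = V a := by
    intro a b ha hb hab hlt
    have h1 := hadd a b ha hb hab
    rw [min_eq_left hlt.le] at h1
    have h2 := hadd (a + b) (-b) hab (neg_ne_zero.mpr hb) (by simpa using ha)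
    rw [add_neg_cancel_right, hneg b hb] at h2
    apply le_antisymm _ h1
    rcases min_le_iff.mp h2 with h3 | h3
    · exact h3
    · exact absurd h3 (not_le.mpr hlt)
  rcases lt_or_gt_of_ne h with h1 | h1
  · exact Or.inl (key f g hf hg hne h1)
  · right
    rw [add_comm]
    exact key g f hg hf (by rwa [add_comm]) h1

/-- a finite sum of nonzero terms with different values is not zero -/
lemma many (hneg : ∀ f, f ≠ 0 → V (-f) = V f)
    (hadd : ∀ f g, f ≠ 0 → g ≠ 0 → f + g ≠ 0 → min (V f) (V g) ≤ V (f + g))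
    {ι : Type} (a : ι → K) (s : Finset ι) (hs : s.Nonempty) (h0 : ∀ i ∈ s, a i ≠ 0)
    (hV : ∀ i ∈ s, ∀ j ∈ s, i ≠ j → V (a i) ≠ V (a j)) :
    ∑ i ∈ s, a i ≠ 0 ∧ ∃ i ∈ s, V (∑ i ∈ s, a i) = V (a i) := by
  classical
  induction hs using Finset.Nonempty.cons_induction with
  | singleton i =>
    simp only [Finset.sum_singleton, Finset.mem_singleton]
    exact ⟨h0 i (by simp), i, rfl, rfl⟩
  | cons i t hi ht ih =>
    obtain ⟨h1, j, hj, hVj⟩ := ih (fun l hl => h0 l (Finset.mem_cons.mpr (Or.inr hl)))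
      (fun l hl l' hl' => hV l (Finset.mem_cons.mpr (Or.inr hl)) l'
        (Finset.mem_cons.mpr (Or.inr hl')))
    rw [Finset.sum_cons]
    have hij : i ≠ j := fun h => hi (h ▸ hj)
    have h2 : V (a i) ≠ V (∑ x ∈ t, a x) := by
      rw [hVj]
      exact hV i (Finset.mem_cons_self i t) j (Finset.mem_cons.mpr (Or.inr hj)) hij
    obtain ⟨h3, h4⟩ := two V hneg hadd (h0 i (Finset.mem_cons_self i t)) h1 h2
    refine ⟨h3, ?_⟩
    rcases h4 with h4 | h4
    · exact ⟨i, Finset.mem_cons_self i t, h4⟩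
    · exact ⟨j, Finset.mem_cons.mpr (Or.inr hj), h4.trans hVj⟩

end Val

theorem plc : S_PLC := by
  classical
  intro k K _ _ _ w hw b hb β 𝒱 v hmul hadd hconst F hF hF1 hG
  let V : K → Filter.Germ (𝒱 : Filter β) ℤ :=
    fun f => ((fun x => v x f : β → ℤ) : Filter.Germ (𝒱 : Filter β) ℤ)
  have hV : ∀ f, V f = ((fun x => v x f : β → ℤ) : Filter.Germ (𝒱 : Filter β) ℤ) := fun _ => rfl
  have Vmul : ∀ f g, f ≠ 0 → g ≠ 0 → V (f * g) = V f + V g := by
    intro f g hf hg
    rw [hV, hV, hV]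
    exact Filter.Germ.coe_eq.mpr (hmul f g hf hg)
  have Vadd : ∀ f g, f ≠ 0 → g ≠ 0 → f + g ≠ 0 → min (V f) (V g) ≤ V (f + g) := by
    intro f g hf hg hfg
    rw [hV, hV, hV, Filter.Germ.min_def]
    exact Filter.Germ.coe_le.mpr (hadd f g hf hg hfg)
  have Vc : ∀ (f : K) (e : ℤ), V f = ((e : ℤ) : Filter.Germ (𝒱 : Filter β) ℤ) ↔
      ∀ᶠ x in (𝒱 : Filter β), v x f = e := by
    intro f e
    rw [hV]
    exact Filter.Germ.coe_eq
  have Vone : ∀ᶠ x in (𝒱 : Filter β), v x (1 : K) = 0 := by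
    have := hconst 1 one_ne_zero
    simpa using this
  have hneg : ∀ f, f ≠ 0 → V (-f) = V f := by
    intro f hf
    rw [hV, hV]
    apply Filter.Germ.coe_eq.mpr
    have h1 := hconst (-1) (neg_ne_zero.mpr one_ne_zero)
    have h2 := hmul (algebraMap k K (-1)) f (by simp) hf
    filter_upwards [h1, h2] with x h1 h2
    rw [h1, zero_add] at h2
    simpa using h2
  -- powers
  have Vpow : ∀ f : K, f ≠ 0 → ∀ n : ℕ, ∀ᶠ x in (𝒱 : Filter β), v x (f ^ n) = n * v x f := by
    intro f hf n
    induction n with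
    | zero =>
      filter_upwards [Vone] with x hx
      simp [hx]
    | succ n ih =>
      filter_upwards [ih, hmul (f ^ n) f (pow_ne_zero n hf) hf] with x h1 h2
      rw [pow_succ, h2, h1]
      push_cast
      ring
  -- polynomials in `b`
  have hinj : ∀ G : MvPolynomial (Fin w) k, G ≠ 0 → aeval b G ≠ 0 := by
    intro G hG0 h0
    exact hG0 ((algebraicIndependent_iff_injective_aeval.mp hb) (by rw [h0, map_zero]))
  have hpoly : ∀ G : MvPolynomial (Fin w) k, G ≠ 0 →
      ∃ e : ℤ, ∀ᶠ x in (𝒱 : Filter β), v x (aeval b G) = e := by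
    intro G hG0
    obtain ⟨n, G', hn, hG'⟩ := WfDvdMonoid.max_power_factor hG0 hF
    have hF0 : F ≠ 0 := hF.ne_zero
    have hG'0 : G' ≠ 0 := by
      rintro rfl
      exact hn (dvd_zero F)
    refine ⟨n, ?_⟩
    have h1 := hG G' (hF.isRelPrime_iff_not_dvd.mpr hn)
    have h2 := Vpow (aeval b F) (hinj F hF0) n
    have h3 := hmul (aeval b F ^ n) (aeval b G') (pow_ne_zero n (hinj F hF0)) (hinj G' hG'0)
    filter_upwards [h1, h2, h3, hF1] with x h1 h2 h3 h4
    rw [hG', map_mul, map_pow, h3, h2, h1, h4]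
    ring
  -- all elements
  have halg : Algebra.IsAlgebraic (Algebra.adjoin k (Set.range b)) K := by
    have hB : IsTranscendenceBasis k b :=
      AlgebraicIndependent.isTranscendenceBasis_of_trdeg_le_of_finite hb (by rw [hw]; simp)
    exact hB.isAlgebraic
  have hall : ∀ f : K, f ≠ 0 → ∃ e : ℤ, ∀ᶠ x in (𝒱 : Filter β), v x f = e := by
    intro f hf
    obtain ⟨p, hp0, hp⟩ := halg.isAlgebraic f
    have hcoef : ∀ i ∈ p.support, ∃ e : ℤ, ((p.coeff i : Algebra.adjoin k (Set.range b)) : K) ≠ 0 ∧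
        ∀ᶠ x in (𝒱 : Filter β), v x ((p.coeff i : Algebra.adjoin k (Set.range b)) : K) = e := by
      intro i hi
      have h1 : p.coeff i ≠ 0 := Polynomial.mem_support_iff.mp hi
      have h2 : ((p.coeff i : Algebra.adjoin k (Set.range b)) : K) ∈
          (aeval b : MvPolynomial (Fin w) k →ₐ[k] K).range := by
        rw [← Algebra.adjoin_range_eq_range_aeval]
        exact (p.coeff i).2
      obtain ⟨G, hGe⟩ := h2
      have h3 : ((p.coeff i : Algebra.adjoin k (Set.range b)) : K) ≠ 0 := by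
        simpa using h1
      have hG0 : G ≠ 0 := by
        rintro rfl
        apply h3
        rw [← hGe]
        simp
      obtain ⟨e, he⟩ := hpoly G hG0
      refine ⟨e, h3, ?_⟩
      have h4 : ((p.coeff i : Algebra.adjoin k (Set.range b)) : K) = aeval b G := hGe.symm
      rw [h4]
      exact he
    choose! e he0 he using hcoef
    set a : ℕ → K := fun i => ((p.coeff i : Algebra.adjoin k (Set.range b)) : K) * f ^ i with ha
    have hsum : ∑ i ∈ p.support, a i = 0 := by
      rw [← hp, Polynomial.aeval_def, Polynomial.eval₂_eq_sum, Polynomial.sum_def]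
      rfl
    by_contra hcon
    push Not at hcon
    refine (many V hneg Vadd a p.support (Polynomial.support_nonempty.mpr hp0) ?_ ?_).1 hsum
    · intro i hi
      exact mul_ne_zero (he0 i hi) (pow_ne_zero i hf)
    · intro i hi j hj hij hVij
      rw [hV, hV] at hVij
      have h1 := Filter.Germ.coe_eq.mp hVij
      have h2 : ∀ᶠ x in (𝒱 : Filter β), ((j : ℤ) - i) * v x f = e i - e j := by
        filter_upwards [h1, he i hi, he j hj, Vpow f hf i, Vpow f hf j,
          hmul _ _ (he0 i hi) (pow_ne_zero i hf), hmul _ _ (he0 j hj) (pow_ne_zero j hf)] with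
          x h1 h2 h3 h4 h5 h6 h7
        rw [ha] at h1
        simp only at h1
        rw [h6, h7, h2, h3, h4, h5] at h1
        linarith
      have hji : ((j : ℤ) - i) ≠ 0 := by
        intro h; apply hij; omega
      obtain ⟨x, hx, hx'⟩ := (h2.and (hcon ((e i - e j) / ((j : ℤ) - i)))).exists
      apply hx'
      rw [← hx, Int.mul_ediv_cancel_left _ hji]
  choose! c hc using hall
  have huniq : ∀ (f : K) (e e' : ℤ), (∀ᶠ x in (𝒱 : Filter β), v x f = e) →
      (∀ᶠ x in (𝒱 : Filter β), v x f = e') → e = e' := by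
    intro f e e' h1 h2
    obtain ⟨x, h3, h4⟩ := (h1.and h2).exists
    rw [← h3, h4]
  have hF0 : F ≠ 0 := hF.ne_zero
  refine ⟨{ ord := fun f => if f = 0 then 0 else c f
            ord_zero := by simp
            ord_mul := ?_
            ord_add := ?_
            ord_const := ?_
            surj := ?_ }, ?_⟩
  · intro f g hf hg
    simp only [hf, hg, mul_ne_zero hf hg, if_false]
    obtain ⟨x, h1, h2, h3, h4⟩ := ((hc f hf).and ((hc g hg).and ((hc _ (mul_ne_zero hf hg)).and
      (hmul f g hf hg)))).exists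
    rw [← h1, ← h2, ← h3, h4]
  · intro f g hf hg hfg
    simp only [hf, hg, hfg, if_false]
    obtain ⟨x, h1, h2, h3, h4⟩ := ((hc f hf).and ((hc g hg).and ((hc _ hfg).and
      (hadd f g hf hg hfg)))).exists
    rw [← h1, ← h2, ← h3]
    exact h4
  · intro a ha
    have ha' : algebraMap k K a ≠ 0 := by simpa using ha
    simp only [ha', if_false]
    exact huniq _ _ _ (hc _ ha') (hconst a ha)
  · refine ⟨aeval b F, hinj F hF0, ?_⟩
    simp only [hinj F hF0, if_false]
    exact huniq _ _ _ (hc _ (hinj F hF0)) hF1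
  · intro f hf
    simp only [hf, if_false]
    exact hc f hf

end Pool.Agent.N901.GF.PLC
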